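import Pool.Agent.Lib.MP_f0391a_al.Gen.Final

/-!
# MP_f0391a_al: the orbit algebra of the switching group of the random graph is a polynomial ring
-/

set_option autoImplicit false

namespace Pool.Agent.Results.MP_f0391a_al.OrbitAlgebraComplex

/-- `R` (with vertex set `ℕ`) is the random graph, the countable universal homogeneous graph: every
finite graph is an induced subgraph of `R`, and every isomorphism `f` between finite induced
subgraphs of `R` extends to an automorphism of `R`. -/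
structure IsRandomGraph (R : SimpleGraph ℕ) : Prop where
  universal : ∀ (V : Type) [Finite V] (H : SimpleGraph V), Nonempty (H ↪g R)
  homogeneous : ∀ (S : Finset ℕ) (f : ℕ → ℕ), Set.InjOn f S →
    (∀ x ∈ S, ∀ y ∈ S, (R.Adj (f x) (f y) ↔ R.Adj x y)) → ∃ g : R ≃g R, ∀ x ∈ S, g x = f x

/-- The graph obtained from `R` by switching with respect to `X`: adjacency and non-adjacency are
interchanged for every pair with exactly one vertex in `X`. -/
def switching (R : SimpleGraph ℕ) (X : Set ℕ) : SimpleGraph ℕ where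
  Adj a b := a ≠ b ∧ (R.Adj a b ↔ (a ∈ X ↔ b ∈ X))
  symm := ⟨fun a b h => ⟨h.1.symm, by rw [R.adj_comm, h.2]; exact Iff.comm⟩⟩
  loopless := ⟨fun _ h => h.1 rfl⟩

/-- The switching automorphisms of `R`: the permutations `g` for which the image of `R` under `g` is
obtained from `R` by switching with respect to some `X`. -/
def SwitchingAut (R : SimpleGraph ℕ) : Set (Equiv.Perm ℕ) :=
  {g | ∃ X : Set ℕ, R.map g.toEmbedding = switching R X}

/-- The product `(f g)(K) = ∑_{L ⊆ K} f(L) g(K \ L)` of functions on the finite subsets of `ℕ`. -/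
def mul {k : Type} [Field k] (f g : Finset ℕ → k) : Finset ℕ → k :=
  fun K => ∑ L ∈ K.powerset, f L * g (K \ L)

/-- The orbit algebra `A^G` of `G = SwitchingAut R` as a set of functions on the finite subsets of
`ℕ`: a function belongs to `A = ⊕ V_n` if it vanishes on all sets with at least `N` elements, for
some `N`, and it is invariant if `f(g K) = f(K)` for all `g` in `G` and all `K`. -/
def OrbitAlgebra (k : Type) [Field k] (R : SimpleGraph ℕ) : Set (Finset ℕ → k) :=
  {f | (∃ N : ℕ, ∀ K : Finset ℕ, N ≤ K.card → f K = 0) ∧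
    ∀ g ∈ SwitchingAut R, ∀ K : Finset ℕ, f (K.map g.toEmbedding) = f K}

theorem isSw_of_mem {R : SimpleGraph ℕ} {g : Equiv.Perm ℕ} (hg : g ∈ SwitchingAut R) :
    Pool.Agent.Lib.MP_f0391a_al.Gen.IsSw R g⁻¹ := by
  obtain ⟨X, hX⟩ := hg
  refine ⟨X, fun i j hij => ?_⟩
  have h1 : (R.map g.toEmbedding).Adj i j ↔ R.Adj (g⁻¹ i) (g⁻¹ j) := by
    rw [SimpleGraph.map_adj]
    constructor
    · rintro ⟨a, b, hab, rfl, rfl⟩
      simpa using hab
    · intro h
      exact ⟨g⁻¹ i, g⁻¹ j, h, by simp, by simp⟩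
  rw [← h1, hX]
  exact ⟨fun h => h.2, fun h => ⟨hij, h⟩⟩

theorem mem_of_isSw {R : SimpleGraph ℕ} {g : Equiv.Perm ℕ}
    (hg : Pool.Agent.Lib.MP_f0391a_al.Gen.IsSw R g⁻¹) : g ∈ SwitchingAut R := by
  obtain ⟨X, hX⟩ := hg
  refine ⟨X, ?_⟩
  ext i j
  have h1 : (R.map g.toEmbedding).Adj i j ↔ R.Adj (g⁻¹ i) (g⁻¹ j) := by
    rw [SimpleGraph.map_adj]
    constructor
    · rintro ⟨a, b, hab, rfl, rfl⟩
      simpa using hab
    · intro h
      exact ⟨g⁻¹ i, g⁻¹ j, h, by simp, by simp⟩
  rw [h1]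
  constructor
  · intro h
    have hij : i ≠ j := by
      rintro rfl
      exact R.loopless.1 _ h
    exact ⟨hij, (hX i j hij).1 h⟩
  · intro h
    exact (hX i j h.1).2 h.2

theorem mem_orbitAlgebra_iff {k : Type} [Field k] {R : SimpleGraph ℕ} (f : Finset ℕ → k) :
    f ∈ OrbitAlgebra k R ↔ Pool.Agent.Lib.MP_f0391a_al.Gen.Inv R f := by
  constructor
  · rintro ⟨h1, h2⟩
    refine ⟨h1, fun σ hσ s => ?_⟩
    have h3 := h2 σ⁻¹ (mem_of_isSw (by rwa [inv_inv])) (s.map σ.toEmbedding)
    rw [← h3]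
    congr 1
    ext x
    simp [Finset.mem_map_equiv, Equiv.Perm.inv_def]
  · rintro ⟨h1, h2⟩
    refine ⟨h1, fun g hg K => ?_⟩
    have h3 := h2 g⁻¹ (isSw_of_mem hg) (K.map g.toEmbedding)
    rw [← h3]
    congr 1
    ext x
    simp [Finset.mem_map_equiv, Equiv.Perm.inv_def]

/-- The random graph exists, and for every field `k` of characteristic `0` (the question is asked for
`k = ℂ`) the orbit algebra of the group of its switching automorphisms is isomorphic to a polynomial
ring over `k`, with homogeneous generators. -/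
theorem result :
    (∃ R : SimpleGraph ℕ, IsRandomGraph R) ∧
    ∀ (R : SimpleGraph ℕ), IsRandomGraph R → ∀ (k : Type) [Field k] [CharZero k],
      ∃ (ι : Type) (φ : MvPolynomial ι k →ₗ[k] (Finset ℕ → k)),
        Function.Injective φ ∧ Set.range φ = OrbitAlgebra k R ∧
        (φ 1 = fun K => if K = ∅ then 1 else 0) ∧
        (∀ p q, φ (p * q) = mul (φ p) (φ q)) ∧
        ∀ i, ∃ d : ℕ, ∀ K : Finset ℕ, φ (MvPolynomial.X i) K ≠ 0 → K.card = d := by
  refine ⟨⟨Pool.Agent.Lib.MP_f0391a_al.bit, fun V _ H =>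
    Pool.Agent.Lib.MP_f0391a_al.Gen.bit_universal V H,
    Pool.Agent.Lib.MP_f0391a_al.Gen.bit_homogeneous⟩, fun R hR k _ _ => ?_⟩
  have hE := Pool.Agent.Lib.MP_f0391a_al.Gen.extProp_of_universal hR.universal hR.homogeneous
  obtain ⟨φ, h1, h2, h3, h4, h5⟩ := Pool.Agent.Lib.MP_f0391a_al.Gen.main_gen (k := k) hE
  refine ⟨Pool.Agent.Lib.MP_f0391a_al.Eul, φ, h1, ?_, ?_, ?_, h5⟩
  · ext f
    rw [h2, mem_orbitAlgebra_iff]
  · rw [h3]
  · intro p q
    rw [h4]
    rfl

end Pool.Agent.Results.MP_f0391a_al.OrbitAlgebraComplex
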